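import Mathlib
import Pool.Agent.Q237.LS.Str
import Pool.Agent.Q237.LT.Tot

/-!
# Bounds for the torsion of powers of elliptic curves and of their Weil restrictions, which depend
# neither on the dimension nor on the degree of the field

For `j ∈ K`, `poleCount j` is the sum of `log N v` over the finite poles `v` of `j`, and `addCount j`
that over the primes `v`, prime to `6` and not poles of `j`, at which all elliptic curves over `K` of
invariant `j` have additive reduction of a type other than `I₀*`: those at which `v(j)` is not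
divisible by `3` or `v(j - 1728)` is not divisible by `2`.

(1) Let `K` be a number field, `0 < θ ≤ 1`, and `j ∈ K` with
`poleCount j + addCount j / 2 ≥ (θ + κ) h(j)` and of absolute height at least `C / θ²`. Then for ALL
finite extensions `L` of `K`, of whatever degree, with root discriminant `δ_L ≤ δ_K * H(j) ^ κ`, for
all elliptic curves `E` over `L` of invariant `j` (all twists over `L`) and for all `g`, every torsion
point of `E ^ g` over `L` has order at most `28 / θ²`. These are the points over `K` of the Weil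
restriction of `E ^ g`, a polarised abelian variety over `K` of dimension `g [L : K]`; so this is a
bound for the orders of the torsion points over the fixed field `K` of a family of abelian varieties
over `K` of unbounded dimension, which does not depend on the dimension (the known bounds for `E(L)`,
by Merel and Parent, grow exponentially with the degree of `L`, and those in terms of the Szpiro
ratio grow with the degree).

(2) The conclusion of (1) holds for all `j ∈ K` of height at most `B`, except for at most
`(C * B ^ (1 / 3 + 4 (θ + κ) / 3 + ε)) ^ n` of them, `n = [K : ℚ]`, with `C` independent of `K`. There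
are at least `(C⁻¹ * B ^ (2 - ε) * δ_K ^ (- (2 + ε))) ^ n` invariants if `B ≥ 16 √δ_K`.

(3) Conversely a torsion point of order `N > 28 / θ²` on a power of a curve over `L` whose invariant
`j ∈ K` is not exceptional forces `δ_L > δ_K * H(j) ^ κ`: the fields generated by the torsion points
of large order are very ramified.

Proof: sharp lower bounds of the local heights, with bounded errors, at all places, an energy
inequality for the points `2P, 4P, …, 2NP`, with a gain at the finite poles of `j` and at the
additive places; the ramification is controlled by the different of `L / K`.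
-/

set_option autoImplicit false
set_option linter.unusedSectionVars false

namespace Pool.Agent.Results.MP_160b6c_nt.DegreeFreeTorsion

open NumberField IsDedekindDomain Pool.Agent.TH942

section Defs

variable {K : Type} [Field K] [NumberField K]

/-- the `j`-invariant of `y² = x³ + a x + b` -/
noncomputable def jInv (a b : K) : K := 6912 * a ^ 3 / (4 * a ^ 3 + 27 * b ^ 2)

open Classical in
/-- the sum of `log N v` over the finite poles `v` of `j` -/
noncomputable def poleCount (j : K) : ℝ :=
  ∑ᶠ v : HeightOneSpectrum (𝓞 K),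
    if 1 < FinitePlace.mk v j then Real.log (Ideal.absNorm v.asIdeal) else 0

/-- `v` does not divide `6`, `j` has no pole at `v`, and `v(j)` is not divisible by `3` or
`v(j - 1728)` is not divisible by `2` -/
def Additive (j : K) (v : HeightOneSpectrum (𝓞 K)) : Prop :=
  FinitePlace.mk v (2 : K) = 1 ∧ FinitePlace.mk v (3 : K) = 1 ∧ FinitePlace.mk v j ≤ 1 ∧
    ((∀ m : ℤ, FinitePlace.mk v j ≠ (Ideal.absNorm v.asIdeal : ℝ) ^ (3 * m)) ∨
      (∀ m : ℤ, FinitePlace.mk v (j - 1728) ≠ (Ideal.absNorm v.asIdeal : ℝ) ^ (2 * m)))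

open Classical in
/-- the sum of `log N v` over the places `v` with `Additive j v` -/
noncomputable def addCount (j : K) : ℝ :=
  ∑ᶠ v : HeightOneSpectrum (𝓞 K),
    if Additive j v then Real.log (Ideal.absNorm v.asIdeal) else 0

/-- the absolute logarithmic height -/
noncomputable def absH (j : K) : ℝ := Height.logHeight₁ j / Module.finrank ℚ K

open Classical in
/-- all torsion points over `K`, of order at most `B`, on all powers of all elliptic curves over `K`
of invariant `j` -/
def TorsionLe (B : ℝ) (j : K) : Prop :=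
  ∀ a b : K, 4 * a ^ 3 + 27 * b ^ 2 ≠ 0 → jInv a b = j →
    ∀ (g : ℕ) (P : Fin g → SPt a b), IsOfFinAddOrder P → (addOrderOf P : ℝ) ≤ B

variable (K)

/-- the root discriminant `δ_K` -/
noncomputable def rootDisc : ℝ :=
  |(NumberField.discr K : ℝ)| ^ (1 / (Module.finrank ℚ K : ℝ))

/-- the invariants of absolute height at most `B` -/
def Inv (B : ℝ) : Set K :=
  {j | j ≠ 0 ∧ j ≠ 1728 ∧ Height.logHeight₁ j ≤ Module.finrank ℚ K * Real.log B}

variable {K}

/-- The bound `B` for the orders of the torsion points holds over all finite extensions `L` of `K`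
with root discriminant at most `δ_K * H(j) ^ κ`. -/
def InExtensions (κ B : ℝ) (j : K) : Prop :=
  ∀ (L : Type) [Field L] [NumberField L] [Algebra K L],
    rootDisc L ≤ rootDisc K * Real.exp (κ * absH j) → TorsionLe B (algebraMap K L j)

variable (K)

/-- the invariants of height at most `B` for which the bound `28 / θ²` fails in some extension -/
def Exc (θ κ B : ℝ) : Set K := {j ∈ Inv K B | ¬ InExtensions κ (28 / θ ^ 2) j}

end Defs

open Pool.Agent.Y733.UD Pool.Agent.Y733.LS Pool.Agent.W223.AK Pool.Agent.H691R3
open Pool.Agent.Q237.LS Pool.Agent.Q237.LT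

section Aux

variable {K : Type} [Field K] [NumberField K]

open Classical in
theorem poleCount_eq (j : K) : poleCount j = fa j := by
  unfold fa
  rw [← fsum_ite (wa j) (fun v => Real.log (Nv v))]
  unfold poleCount
  refine finsum_congr fun v => ?_
  by_cases h : v ∈ wa j
  · have hp : 1 < FinitePlace.mk v j := mem_wa.1 h
    rw [if_pos h, if_pos hp]
    rfl
  · have hp : ¬ 1 < FinitePlace.mk v j := fun h' => h (mem_wa.2 h')
    rw [if_neg h, if_neg hp]

open Classical in
theorem addCount_eq {j : K} (h0 : j ≠ 0) (h1 : j ≠ 1728) : addCount j = fu j := by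
  unfold fu
  rw [← fsum_ite (wu j) (fun v => Real.log (Nv v))]
  unfold addCount
  refine finsum_congr fun v => ?_
  by_cases h : v ∈ wu j
  · have hp : Additive j v := (mem_wu h0 h1).1 h
    rw [if_pos h, if_pos hp]
    rfl
  · have hp : ¬ Additive j v := fun h' => h ((mem_wu h0 h1).2 h')
    rw [if_neg h, if_neg hp]

open Classical in
theorem tors_of {c B : ℝ} {j : K} (h : Pool.Agent.Q237.LS.LT c B j) : TorsionLe B j := by
  intro a b hD hj g P hP
  obtain ⟨m, hm, hmB, hmP⟩ := fam_tors (h a b hD hj).1 P (tors_pi hP)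
  have h1 : addOrderOf P ≤ m := addOrderOf_le_of_nsmul_eq_zero hm hmP
  exact le_trans (by exact_mod_cast h1) hmB

open Classical in
theorem inExt_of {κ c B : ℝ} {j : K} (h : UT κ c B j) : InExtensions κ B j := by
  intro L _ _ _ hL
  exact tors_of (h L (rDisc_le hL))

end Aux

/-- a single invariant and all extensions -/
theorem part_one : ∃ C : ℝ, 0 < C ∧ ∀ θ κ : ℝ, 0 < θ → θ ≤ 1 →
    ∀ (K : Type) [Field K] [NumberField K] (j : K), j ≠ 0 → j ≠ 1728 →
      (θ + κ) * Height.logHeight₁ j ≤ poleCount j + addCount j / 2 → C / θ ^ 2 ≤ absH j →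
      InExtensions κ (28 / θ ^ 2) j := by
  classical
  refine ⟨144 * c8, by have := c8_pos; positivity, ?_⟩
  intro θ κ hθ hθ1 K _ _ j h0 h1 hf hh
  rw [poleCount_eq, addCount_eq h0 h1, ht_log] at hf
  unfold absH at hh
  rw [ht_log] at hh
  have hn := Pool.Agent.Q237.LS.n_pos (K := K)
  have hθ2 : 0 < θ ^ 2 := by positivity
  rw [div_le_div_iff₀ hθ2 hn] at hh
  apply inExt_of (c := θ ^ 6 / 290000)
  intro L _ _ _ _ hL
  exact LTU_ext h0 h1 hθ hθ1 hf (by linarith) hL

/-- the exceptional invariants -/
theorem part_two (θ κ ε : ℝ) (hθ : 0 < θ) (hθ1 : θ ≤ 1) (hκ0 : 0 ≤ κ) (hε : 0 < ε) :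
    ∃ C : ℝ, 0 < C ∧
    ∀ (K : Type) [Field K] [NumberField K] (B : ℝ), 1 ≤ B →
      (Inv K B).Finite ∧
      ((Exc K θ κ B).ncard : ℝ) ≤
        (C * B ^ (1 / 3 + 4 / 3 * (θ + κ) + ε)) ^ Module.finrank ℚ K := by
  set R : Prp := fun K _ _ j => InExtensions κ (28 / θ ^ 2) j with hR
  obtain ⟨A1, hA1, h1⟩ := log_countU hθ hθ1 hκ0 (half_pos hε) R (fun K _ _ j h => inExt_of h)
  exact countsU R hε h1

open Classical in
/-- torsion points of large order generate very ramified fields -/
theorem part_three (N : ℕ) (θ κ : ℝ) (hθ : 0 < θ) (hN : 28 < N * θ ^ 2)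
    {K : Type} [Field K] [NumberField K] {B : ℝ} {j : K}
    (hj : j ∈ Inv K B ∧ j ∉ Exc K θ κ B) (L : Type) [Field L] [NumberField L] [Algebra K L]
    (a b : L) (hD : 4 * a ^ 3 + 27 * b ^ 2 ≠ 0) (hab : jInv a b = algebraMap K L j) (g : ℕ)
    (P : Fin g → SPt a b) (hP : IsOfFinAddOrder P) (hPN : N ≤ addOrderOf P) :
    rootDisc K * Real.exp (κ * absH j) < rootDisc L := by
  by_contra hcon
  push Not at hcon
  have h1 : InExtensions κ (28 / θ ^ 2) j := by
    by_contra h
    exact hj.2 ⟨hj.1, h⟩
  have h2 := h1 L hcon a b hD hab g P hP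
  have h3 : 0 < θ ^ 2 := by positivity
  rw [le_div_iff₀ h3] at h2
  have h4 : (N : ℝ) ≤ addOrderOf P := by exact_mod_cast hPN
  have h5 := mul_le_mul_of_nonneg_right h4 h3.le
  linarith

open Classical in
/-- **Main theorem.**
(1) The bound `28 / θ²` for a single invariant `j ∈ K` in all finite extensions `L` of `K` with root
discriminant at most `δ_K * H(j) ^ κ`, if `poleCount j + addCount j / 2 ≥ (θ + κ) h(j)` and the
absolute height of `j` is at least `C / θ²`.
(2) For `0 < θ ≤ 1`, `κ ≥ 0` and `ε > 0` there is `C`, which does not depend on the field, such that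
over every number field `K` and for `B ≥ 1`, the bound `28 / θ²` for the orders of the torsion
points, over all finite extensions `L` of `K` with root discriminant at most `δ_K * H(j) ^ κ`, on all
powers of all elliptic curves over `L` of invariant `j`, holds for all `j ∈ K` of height at most `B`
with at most `(C * B ^ (1 / 3 + 4 (θ + κ) / 3 + ε)) ^ n` exceptions.
(3) If `N θ² > 28` and `j` is not exceptional, then a torsion point of order at least `N` over
`L` on a power of a curve over `L` of invariant `j` forces `δ_L > δ_K * H(j) ^ κ`.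
(4) The number of all invariants. -/
theorem result :
    (∃ C : ℝ, 0 < C ∧ ∀ θ κ : ℝ, 0 < θ → θ ≤ 1 →
      ∀ (K : Type) [Field K] [NumberField K] (j : K), j ≠ 0 → j ≠ 1728 →
        (θ + κ) * Height.logHeight₁ j ≤ poleCount j + addCount j / 2 → C / θ ^ 2 ≤ absH j →
        InExtensions κ (28 / θ ^ 2) j) ∧
    (∀ θ κ ε : ℝ, 0 < θ → θ ≤ 1 → 0 ≤ κ → 0 < ε → ∃ C : ℝ, 0 < C ∧
      ∀ (K : Type) [Field K] [NumberField K] (B : ℝ), 1 ≤ B →
        (Inv K B).Finite ∧
        ((Exc K θ κ B).ncard : ℝ) ≤
          (C * B ^ (1 / 3 + 4 / 3 * (θ + κ) + ε)) ^ Module.finrank ℚ K) ∧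
    (∀ (N : ℕ) (θ κ : ℝ), 0 < θ → 28 < N * θ ^ 2 →
      ∀ (K : Type) [Field K] [NumberField K] (B : ℝ) (j : K), j ∈ Inv K B ∧ j ∉ Exc K θ κ B →
      ∀ (L : Type) [Field L] [NumberField L] [Algebra K L] (a b : L),
        4 * a ^ 3 + 27 * b ^ 2 ≠ 0 → jInv a b = algebraMap K L j →
        ∀ (g : ℕ) (P : Fin g → SPt a b), IsOfFinAddOrder P → N ≤ addOrderOf P →
          rootDisc K * Real.exp (κ * absH j) < rootDisc L) ∧
    (∀ ε : ℝ, 0 < ε → ∃ C : ℝ, 0 < C ∧
      ∀ (K : Type) [Field K] [NumberField K] (B : ℝ), 16 * √(rootDisc K) ≤ B →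
        (C⁻¹ * B ^ (2 - ε) * rootDisc K ^ (-(2 + ε))) ^ Module.finrank ℚ K ≤
          ((Inv K B).ncard : ℝ)) :=
  ⟨part_one, part_two,
    fun N θ κ hθ hN _ _ _ _ _ hj L _ _ _ a b hD hab g P hP hPN =>
      part_three N θ κ hθ hN hj L a b hD hab g P hP hPN,
    fun _ hε => inv_lower hε⟩

end Pool.Agent.Results.MP_160b6c_nt.DegreeFreeTorsion
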