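import Mathlib
import Pool.Agent.Q271.TP.Number
import Pool.Agent.Results.MP_160b6c_nt.DegreeFreeTorsion

/-!
# Torsion of products of elliptic curves in families, of all dimensions, for almost all parameters
# over all fields of bounded degree, and over all extensions of these fields of small root
# discriminant

Let `K` be a number field and `j_i = F_i/G_i`, `i < r`, nonconstant rational functions over `K`, `F_i`
and `G_i` coprime. Let `D = max_i max(deg F_i, deg G_i)`. There is `A` such that for all `n`, `0 < θ ≤ 1`, `κ ≥ 0` and `ε > 0` there is `C`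
with the following property. Let `L` be ANY extension of `K` of degree at most `n` over `ℚ`, and
`X ≥ 1`. For all `t ∈ L` of (relative, multiplicative) height at most `X` (there are about `X ^ 2`),
except for at most `C * X ^ (1 + D (θ + κ) + ε)` of them, the `j_i(t)` are finite and the following holds
over ALL finite extensions `M` of `L`, of whatever degree, with root discriminant
`δ_M ≤ δ_L * H(j_i(t)) ^ κ` for all `i`: for all elliptic curves `E_1, …, E_s` over `M`, `s` arbitrary,
whose invariants are among the `j_i(t)` (all twists over `M`), the torsion points over `M` of the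
product have order dividing `lcm (1, …, ⌊28 / θ ^ 2⌋)`. If every `F_i/G_i` has at least two different
poles on the projective line over the algebraic closure, there are at most
`C * X ^ (A (θ + κ) + ε)` exceptions.

The bound for the orders depends only on `θ`: not on the dimension, not on the families, and not on
the fields or their degrees. The points over `M` are the points over `L` of a Weil restriction.

Proof: the bounds hold if the finite poles of `j_i(t)` have a product of norms of at least
`H(j_i(t)) ^ (θ + κ)` (`DegreeFreeTorsion`). If it is smaller, the number `G_i(t)` (or `t`, if `G_i` is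
constant), respectively the number `(t - π) / (t - ρ)` for two poles `π`, `ρ`, is supported on a set of
primes of small total weight, up to the poles of `t` in the first case; the number of such elements
of bounded height is bounded uniformly in the field (helper673, `Pool.Agent.Y673.Cnt`).
-/

set_option autoImplicit false

namespace Pool.Agent.Results.MP_160b6c_nt.ProductsInFamilies

open NumberField IsDedekindDomain Polynomial
open Pool.Agent.TH942 (SPt)
open Pool.Agent.Results.MP_160b6c_nt.DegreeFreeTorsion

open Classical in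
/-- the orders of the torsion points over `M` of the product of the elliptic curves
`y² = x³ + a_k x + b_k` divide `N` -/
def OrdersDivide (N : ℕ) {M : Type} [Field M] {s : ℕ} (a b : Fin s → M) : Prop :=
  ∀ P : ∀ k, SPt (a k) (b k), IsOfFinAddOrder P → addOrderOf P ∣ N

/-- Over all finite extensions `M` of `L` with root discriminant at most `δ_L * H(j_i) ^ κ` for all
`i`, the torsion points of all products of elliptic curves over `M` with invariants among the `j_i`
have order dividing `N`. -/
def Bounded {L : Type} [Field L] [NumberField L] {r : ℕ} (κ : ℝ) (N : ℕ) (j : Fin r → L) : Prop :=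
  ∀ (M : Type) [Field M] [NumberField M] [Algebra L M],
    (∀ i, rootDisc M ≤ rootDisc L * Real.exp (κ * absH (j i))) →
    ∀ (s : ℕ) (a b : Fin s → M), (∀ k, 4 * a k ^ 3 + 27 * b k ^ 2 ≠ 0) →
    (∀ k, ∃ i, jInv (a k) (b k) = algebraMap L M (j i)) → OrdersDivide N a b

/-- The exceptional parameters: the `t ∈ L` of relative height at most `X` such that some `G_i(t) = 0`
or the bound `lcm (1, …, ⌊28 / θ ^ 2⌋)` fails for the `j_i = F_i(t)/G_i(t)`. -/
def Exceptional {K : Type} [Field K] {r : ℕ} (F G : Fin r → K[X]) (L : Type) [Field L]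
    [NumberField L] [Algebra K L] (θ κ X : ℝ) : Set L :=
  {t | Height.mulHeight₁ t ≤ X ∧ ¬ ((∀ i, ((G i).map (algebraMap K L)).eval t ≠ 0) ∧
    Bounded κ ((Finset.Icc 1 ⌊28 / θ ^ 2⌋₊).lcm id)
      fun i => ((F i).map (algebraMap K L)).eval t / ((G i).map (algebraMap K L)).eval t)}

/-- `F/G` has at least two different poles on the projective line over the algebraic closure. -/
def TwoPoles (K : Type) [Field K] (F G : K[X]) : Prop :=
  (∃ x y : AlgebraicClosure K, x ≠ y ∧ aeval x G = 0 ∧ aeval y G = 0) ∨
    (0 < G.natDegree ∧ G.natDegree < F.natDegree)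

open Classical in
private theorem div_of {L : Type} [Field L] [NumberField L] {r : ℕ} (a b : Fin r → L) (B : ℝ)
    (N : ℕ) (hN : ∀ m : ℕ, 0 < m → (m : ℝ) ≤ B → m ∣ N)
    (hD : ∀ i, 4 * a i ^ 3 + 27 * b i ^ 2 ≠ 0) (h : ∀ i, TorsionLe B (jInv (a i) (b i))) :
    OrdersDivide N a b := by
  intro P hP
  apply addOrderOf_dvd_of_nsmul_eq_zero
  funext i
  rw [Pi.smul_apply, Pi.zero_apply]
  have h1 : IsOfFinAddOrder (P i) := by
    rw [isOfFinAddOrder_iff_nsmul_eq_zero] at hP ⊢
    obtain ⟨n, hn, hn0⟩ := hP
    exact ⟨n, hn, by rw [← Pi.smul_apply, hn0, Pi.zero_apply]⟩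
  have h2 : IsOfFinAddOrder (fun _ : Fin 1 => P i) := by
    rw [isOfFinAddOrder_iff_nsmul_eq_zero] at h1 ⊢
    obtain ⟨n, hn, hn0⟩ := h1
    refine ⟨n, hn, ?_⟩
    funext k
    rw [Pi.smul_apply, hn0, Pi.zero_apply]
  have h3 := h i (a i) (b i) (hD i) rfl 1 (fun _ => P i) h2
  have h4 := hN _ h2.addOrderOf_pos h3
  have h5 : N • (fun _ : Fin 1 => P i) = 0 := addOrderOf_dvd_iff_nsmul_eq_zero.mp h4
  have h6 := congrFun h5 0
  rwa [Pi.smul_apply, Pi.zero_apply] at h6

/-- **Main theorem.**
(1) The number of the exceptional parameters, for all finite families of nonconstant rational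
functions `F_i/G_i`, in all fields of bounded degree, without and with the condition that there are
two poles.
(2) The number of all parameters. -/
theorem result :
    (∀ (K : Type) [Field K] [NumberField K] (r : ℕ) (F G : Fin r → K[X]),
      (∀ i, IsCoprime (F i) (G i)) → (∀ i, G i ≠ 0) →
      (∀ i, 0 < (F i).natDegree ∨ 0 < (G i).natDegree) → ∃ A : ℝ, 0 < A ∧
      ∀ (n : ℕ) (θ κ ε : ℝ), 0 < θ → θ ≤ 1 → 0 ≤ κ → 0 < ε → ∃ C : ℝ, 0 < C ∧
        ∀ (L : Type) [Field L] [NumberField L] [Algebra K L], Module.finrank ℚ L ≤ n →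
          ∀ X : ℝ, 1 ≤ X → (Exceptional F G L θ κ X).Finite ∧
            ((Exceptional F G L θ κ X).ncard : ℝ) ≤
              C * X ^ (1 + (Finset.univ.sup fun i => max (F i).natDegree (G i).natDegree : ℕ) * (θ + κ) + ε) ∧
            ((∀ i, TwoPoles K (F i) (G i)) →
              ((Exceptional F G L θ κ X).ncard : ℝ) ≤ C * X ^ (A * (θ + κ) + ε))) ∧
    (∀ ε : ℝ, 0 < ε → ∃ C : ℝ, 0 < C ∧
      ∀ (L : Type) [Field L] [NumberField L] (B : ℝ), 16 * √(rootDisc L) ≤ B →
        (C⁻¹ * B ^ (2 - ε) * rootDisc L ^ (-(2 + ε))) ^ Module.finrank ℚ L ≤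
          (({t : L | Height.mulHeight₁ t ≤ B ^ Module.finrank ℚ L} : Set L).ncard : ℝ)) := by
  refine ⟨?_, fun ε hε => Pool.Agent.Q271.TP.params_lower hε⟩
  intro K _ _ r F G hFG hG hne
  obtain ⟨A, hA, h⟩ := Pool.Agent.Q271.TP.multi_count K F G hFG hG hne
  refine ⟨A, hA, fun n θ κ ε hθ hθ1 hκ hε => ?_⟩
  obtain ⟨C₀, hC₀, hLS⟩ := part_one
  obtain ⟨C, hC, h2⟩ := h n (θ + κ) ε (C₀ / θ ^ 2) (by positivity) hε
  refine ⟨C, hC, fun L _ _ _ hL X hX => ?_⟩
  have hn : (0 : ℝ) < Module.finrank ℚ L := by exact_mod_cast Module.finrank_pos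
  obtain ⟨f1, f2, f3⟩ := h2 L hL (fun _ j => InExtensions κ (28 / θ ^ 2) j) (by
    intro _ j h0 h1 hf hh
    refine hLS θ κ hθ hθ1 L j h0 h1 ?_ ?_
    · rw [poleCount_eq]
      have : 0 ≤ addCount j := by
        unfold addCount
        exact finsum_nonneg fun v => by split_ifs; exacts [Real.log_natCast_nonneg _, le_rfl]
      linarith
    · unfold absH
      rw [le_div_iff₀ hn]
      exact hh) X hX
  have hsub : Exceptional F G L θ κ X ⊆ ⋃ i, Pool.Agent.Q271.TP.Bad K (F i) (G i) L
      (fun j => InExtensions κ (28 / θ ^ 2) j) X := by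
    rintro t ⟨ht1, ht2⟩
    by_contra hcon
    rw [Set.mem_iUnion, not_exists] at hcon
    have hgood : ∀ i, ((G i).map (algebraMap K L)).eval t ≠ 0 ∧ InExtensions κ (28 / θ ^ 2)
        (((F i).map (algebraMap K L)).eval t / ((G i).map (algebraMap K L)).eval t) := by
      intro i
      by_contra hi
      exact hcon i ⟨ht1, hi⟩
    refine ht2 ⟨fun i => (hgood i).1, ?_⟩
    intro M _ _ _ hM s a b hD hab
    refine div_of a b (28 / θ ^ 2) _ ?_ hD ?_
    · intro m hm hmB
      exact Finset.dvd_lcm (f := id) (Finset.mem_Icc.mpr ⟨hm, Nat.le_floor hmB⟩)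
    · intro k
      obtain ⟨i, hi⟩ := hab k
      rw [hi]
      exact (hgood i).2 M (hM i)
  have hcard : ((Exceptional F G L θ κ X).ncard : ℝ) ≤ ((⋃ i, Pool.Agent.Q271.TP.Bad K (F i) (G i) L
      (fun j => InExtensions κ (28 / θ ^ 2) j) X).ncard : ℝ) := by
    exact_mod_cast Set.ncard_le_ncard hsub f1
  exact ⟨f1.subset hsub, hcard.trans f2, fun hT => hcard.trans (f3 hT)⟩

end Pool.Agent.Results.MP_160b6c_nt.ProductsInFamilies
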