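import Pool.Agent.Q183.UH.Fin3
import Pool.Agent.Q195.UT.Core

/-!
# Recurrent multiples of a point bound its order, uniformly in the variety and the field

Let `A` be a closed subvariety of projective `N`-space over a field `K` of characteristic zero, given
by forms of degree at most `D`, which contains no rational curve; for instance an abelian variety of
dimension `g` with a projective embedding given by four times a principal polarisation,
`N = 4 ^ g - 1`, `D = 2`.  Let `L` be any extension field of `K` (for instance a number field of any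
degree, or `ℂ`) and let `G` be a group of points of `A` over `L`, for instance `G = A(L)`.

There are numbers `M ≥ 1` and `C` which depend only on `N`, `D`, `R` and `d` with the following
property.  If, for two points `Q₀` and `Q` of `G`, at least `M + 2 C` consecutive members of the
sequence `Q₀ + t Q` have homogeneous coordinates which satisfy linear recurrences of order at most
`R` whose coefficients are polynomials of degree at most `d` in the index, then `M Q = 0`.

So the recurrences of the consecutive multiples of a torsion point of large order have a large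
order or degree, uniformly in `A`, `K` and `L`.  The same holds for the iterates of an endomorphism
`φ` of the group `G`: then `φ ^ (C + M) Q = φ ^ C Q` (for the multiplication with `m` the order of
`Q` divides `m ^ C (m ^ M - 1)`).  Conversely each of these assertions characterises the varieties
without rational curves.
-/

set_option autoImplicit false

namespace Pool.Agent.Results.MP_160b6c_nt.RecurrentMultiples

open MvPolynomial Pool.Agent.Q183.UH
open scoped LinearAlgebra.Projectivization

variable {N : ℕ} {K : Type} [Field K]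

/-- The maps over `E` from the projective line to the variety of the forms in `FF`, given by
polynomials, are constant. -/
def NoRationalCurve (FF : Set (MvPolynomial (Fin (N + 1)) K)) (E : Type) [Field E] [Algebra K E] :
    Prop :=
  ∀ p : Fin (N + 1) → Polynomial E, (∀ F ∈ FF, aeval p F = 0) →
    ∀ i j m n, (p i).coeff m * (p j).coeff n = (p j).coeff m * (p i).coeff n

theorem result (N D : ℕ) : ∃ M C : ℕ → ℕ → ℕ, (∀ R d, 0 < M R d) ∧
    ∀ (K : Type) [Field K] [CharZero K] (FF : Set (MvPolynomial (Fin (N + 1)) K)),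
      (∀ F ∈ FF, ∃ e, e ≤ D ∧ F.IsHomogeneous e) →
      [∀ (E : Type) [Field E] [Algebra K E], NoRationalCurve FF E,
       ∀ (L : Type) [Field L] [Algebra K L] (G : Type) [AddCommGroup G]
        (ι : G → ℙ L (Fin (N + 1) → L)), Function.Injective ι →
        ∀ R d l : ℕ, M R d + 2 * C R d ≤ l → ∀ Q₀ Q : G,
        FinPoints FF L R d l (fun t => ι (Q₀ + t • Q)) → M R d • Q = 0,
       ∀ (L : Type) [Field L] [Algebra K L] (G : Type) [AddCommGroup G]
        (ι : G → ℙ L (Fin (N + 1) → L)), Function.Injective ι →
        ∀ R d l : ℕ, M R d + 2 * C R d ≤ l → ∀ (φ : G →+ G) (Q : G),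
        FinPoints FF L R d l (fun t => ι (φ^[t] Q)) → φ^[C R d + M R d] Q = φ^[C R d] Q,
       ∀ (L : Type) [Field L] [Algebra K L] (ι : ℤ → ℙ L (Fin (N + 1) → L)),
        Function.Injective ι → ∀ R : ℕ, ¬ CRecPoints FF L R fun t : ℕ => ι t].TFAE := by
  obtain ⟨M, C, hM, h⟩ := fin_tfae N D
  refine ⟨M, C, hM, fun K _ _ FF hFF => ?_⟩
  have hno : ∀ (E : Type) [Field E] [Algebra K E], RatIn FF {1} E ↔ NoRationalCurve FF E := by
    intro E _ _
    constructor
    · intro h p hp
      rcases h p hp with h1 | h1
      · exact h1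
      · have h2 := h1 1 rfl
        rw [map_one] at h2
        exact absurd h2 one_ne_zero
    · intro h p hp
      exact Or.inl (h p hp)
  have hZ : ∀ {L : Type} [Field L] [Algebra K L] (P : ℙ L (Fin (N + 1) → L)),
      ¬ InZ ({1} : Set (MvPolynomial (Fin (N + 1)) K)) P := by
    intro L _ _ P hP
    have h2 := hP 1 rfl
    rw [map_one] at h2
    exact one_ne_zero h2
  have hT := h K FF {1} hFF (fun G hG => ⟨0, Nat.zero_le _, by
    rw [Set.mem_singleton_iff.1 hG]
    exact isHomogeneous_one _ _⟩)
  have h12 : (∀ (E : Type) [Field E] [Algebra K E], RatIn FF {1} E) ↔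
      ∀ (E : Type) [Field E] [Algebra K E], NoRationalCurve FF E :=
    forall_congr' fun E => forall_congr' fun _ => forall_congr' fun _ => hno E
  have h13 := hT.out 0 2
  -- the period
  have per : (∀ (E : Type) [Field E] [Algebra K E], NoRationalCurve FF E) →
      ∀ (L : Type) [Field L] [Algebra K L] (R d l : ℕ) (P : ℕ → ℙ L (Fin (N + 1) → L)),
        FinPoints FF L R d l P → M R d + 2 * C R d ≤ l → P (C R d + M R d) = P (C R d) := by
    intro h1 L _ _ R d l P hP hl
    have h2 := h13.1 (h12.2 h1) L R d l P hP (C R d) le_rfl (by omega)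
    exact h2.resolve_right fun h3 => hZ _ h3.1
  tfae_have 1 → 2 := by
    intro h1 L _ _ G _ ι hι R d l hl Q₀ Q hP
    have h2 := hι (per h1 L R d l _ hP hl)
    have h3 : (C R d + M R d) • Q = C R d • Q := add_left_cancel h2
    rw [add_nsmul] at h3
    exact add_eq_left.1 h3
  tfae_have 1 → 3 := by
    intro h1 L _ _ G _ ι hι R d l hl φ Q hP
    exact hι (per h1 L R d l _ hP hl)
  tfae_have 2 → 4 := by
    intro h2 L _ _ ι hι R hP
    have h3 := h2 L ℤ ι hι R 0 (M R 0 + 2 * C R 0) le_rfl (R : ℤ) 1 (by
      have h4 := hP.fin 0 (M R 0 + 2 * C R 0)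
      have h5 : (fun m : ℕ => ι ((R + m : ℕ) : ℤ)) = fun t : ℕ => ι ((R : ℤ) + t • (1 : ℤ)) := by
        funext t
        simp
      rw [← h5]
      exact h4)
    have h6 := hM R 0
    simp at h3
    omega
  tfae_have 3 → 4 := by
    intro h2 L _ _ ι hι R hP
    classical
    let κ : ℤ → ℤ := fun m => if h : ∃ t : ℕ, m = 2 ^ t then (h.choose : ℤ)
      else -1 - (Encodable.encode m : ℤ)
    have hpow : ∀ s t : ℕ, (2 : ℤ) ^ s = 2 ^ t → s = t := fun s t hst =>
      Nat.pow_right_injective (le_refl 2) (by exact_mod_cast hst)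
    have hκ1 : ∀ t : ℕ, κ (2 ^ t) = t := by
      intro t
      have hex : ∃ t' : ℕ, (2 : ℤ) ^ t = 2 ^ t' := ⟨t, rfl⟩
      change (if h : ∃ t' : ℕ, (2 : ℤ) ^ t = 2 ^ t' then (h.choose : ℤ) else _) = _
      rw [dif_pos hex]
      have h3 := hpow _ _ hex.choose_spec
      exact_mod_cast h3.symm
    have hκ2 : ∀ m : ℤ, (¬ ∃ t : ℕ, m = 2 ^ t) → κ m = -1 - (Encodable.encode m : ℤ) :=
      fun m hm => dif_neg hm
    have hκ : Function.Injective κ := by
      intro a b hab
      by_cases ha : ∃ t : ℕ, a = 2 ^ t <;> by_cases hb : ∃ t : ℕ, b = 2 ^ t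
      · obtain ⟨s, rfl⟩ := ha
        obtain ⟨t, rfl⟩ := hb
        rw [hκ1, hκ1] at hab
        have h3 : s = t := by exact_mod_cast hab
        rw [h3]
      · obtain ⟨s, rfl⟩ := ha
        rw [hκ1, hκ2 b hb] at hab
        omega
      · obtain ⟨t, rfl⟩ := hb
        rw [hκ1, hκ2 a ha] at hab
        omega
      · rw [hκ2 a ha, hκ2 b hb] at hab
        apply Encodable.encode_injective
        omega
    have hφ : ∀ t : ℕ, (AddMonoidHom.mulLeft (2 : ℤ))^[t] (2 ^ R) = 2 ^ (R + t) := by
      intro t
      induction t with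
      | zero => simp
      | succ t ih =>
        rw [Function.iterate_succ_apply', ih, AddMonoidHom.coe_mulLeft, ← add_assoc R t 1,
          pow_succ' (2 : ℤ) (R + t)]
    have h3 := h2 L ℤ (ι ∘ κ) (hι.comp hκ) R 0 (M R 0 + 2 * C R 0) le_rfl
      (AddMonoidHom.mulLeft 2) (2 ^ R) (by
      have h4 := hP.fin 0 (M R 0 + 2 * C R 0)
      have h5 : (fun m : ℕ => ι ((R + m : ℕ) : ℤ)) =
          fun t : ℕ => (ι ∘ κ) ((AddMonoidHom.mulLeft (2 : ℤ))^[t] (2 ^ R)) := by
        funext t
        rw [hφ, Function.comp_apply, hκ1]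
      rw [← h5]
      exact h4)
    rw [hφ, hφ] at h3
    have h6 := hM R 0
    have h7 := hpow _ _ h3
    omega
  tfae_have 4 → 1 := by
    intro h4 E _ _ p hp
    by_contra hnc
    have hcz : CharZero E := charZero_of_injective_algebraMap (algebraMap K E).injective
    obtain ⟨L, i1, i2, R, P, hinj, hP⟩ := Pool.Agent.Q195.UT.inj_seq (fun F hF => by
      obtain ⟨e, _, he⟩ := hFF F hF
      exact ⟨e, he⟩) hp hnc
    exact h4 L P hinj R hP
  tfae_finish

end Pool.Agent.Results.MP_160b6c_nt.RecurrentMultiples
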