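import Mathlib
import Pool.Agent.Results.MP_9a3c31_nt.SmallDigitInvariants
import Pool.Agent.Results.MP_160b6c_nt.DegreeFreeTorsion

/-!
# An absolute bound for the torsion of products of elliptic curves whose invariants are composed of
numbers with small digits, over all number fields and in all dimensions

Let `t` be an integer of a number field `K` all of whose conjugates are at least `T` in absolute
value (the base). The invariant `j ∈ K` is composed of numbers with small digits in the base `t` if
`(j : 1728 - j : -1728)` has coordinates `b k * ∏ i, F i (t) ^ e k i` with pairwise coprime numbers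
`F i (t)` with small digits, at most `D` in all, small `b k`, and exponents at most `T ^ δ`, and the
product of the `F i (t)` which occur with different exponents in the coordinates is squarefree. These
are the invariants of the elliptic curves for which `c₄`, `c₆` and `Δ` are such products.

We prove that the torsion points over `K` of all elliptic curves with such invariants have order at
most `1008`, over all number fields `K`, so that the orders of the torsion points over `K` of all
products of such curves, of all dimensions `g`, divide the absolute constant `lcm (1, …, 1008)`. There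
are similar bounds over all extensions `L` of small root discriminant, of whatever degree, that is for
the points over `K` of the Weil restrictions.
-/

set_option autoImplicit false

namespace Pool.Agent.Results.MP_160b6c_nt.SmallDigitInvariants

open Polynomial IsDedekindDomain NumberField
open Pool.Agent.TH942 (SPt)
open Pool.Agent.Results.MP_9a3c31_nt.SmallDigitInvariants (Composed)
open Pool.Agent.Results.MP_160b6c_nt.DegreeFreeTorsion

open Classical in
/-- for all products of the elliptic curves `y² = x³ + a_i x + b_i` over `L`, the orders of the torsion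
points over `L` divide `N` -/
def OrdersDivide (N : ℕ) {L : Type} [Field L] [NumberField L] {r : ℕ} (a b : Fin r → L) : Prop :=
  ∀ P : ∀ i, SPt (a i) (b i), IsOfFinAddOrder P → addOrderOf P ∣ N

open Classical in
private theorem div_of {L : Type} [Field L] [NumberField L] {r : ℕ} (a b : Fin r → L) (B : ℝ)
    (N : ℕ) (hN : ∀ m : ℕ, 0 < m → (m : ℝ) ≤ B → m ∣ N)
    (hD : ∀ i, 4 * a i ^ 3 + 27 * b i ^ 2 ≠ 0) (h : ∀ i, TorsionLe B (jInv (a i) (b i))) :
    OrdersDivide N a b := by
  intro P hP
  apply addOrderOf_dvd_of_nsmul_eq_zero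
  funext i
  rw [Pi.smul_apply, Pi.zero_apply]
  have h1 : IsOfFinAddOrder (P i) := by
    rw [isOfFinAddOrder_iff_nsmul_eq_zero] at hP ⊢
    obtain ⟨n, hn, hn0⟩ := hP
    exact ⟨n, hn, by rw [← Pi.smul_apply, hn0, Pi.zero_apply]⟩
  have h2 : IsOfFinAddOrder (fun _ : Fin 1 => P i) := by
    rw [isOfFinAddOrder_iff_nsmul_eq_zero] at h1 ⊢
    obtain ⟨n, hn, hn0⟩ := h1
    refine ⟨n, hn, ?_⟩
    funext k
    rw [Pi.smul_apply, hn0, Pi.zero_apply]
  have h3 := h i (a i) (b i) (hD i) rfl 1 (fun _ => P i) h2
  have h4 := hN _ h2.addOrderOf_pos h3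
  have h5 : N • (fun _ : Fin 1 => P i) = 0 := addOrderOf_dvd_iff_nsmul_eq_zero.mp h4
  have h6 := congrFun h5 0
  rwa [Pi.smul_apply, Pi.zero_apply] at h6

open Classical in
private theorem tors {K : Type} [Field K] [NumberField K] (c B : ℝ) (j : K)
    (h : Pool.Agent.Results.MP_9a3c31_nt.DegreeFreeLangSilverman.LangSilverman c B j) :
    TorsionLe B j := by
  rw [Pool.Agent.Results.MP_9a3c31_nt.DegreeFreeLangSilverman.ls_iff] at h
  exact tors_of h

/-- **Main theorem.** For all `D` there are `δ > 0` and `T₀` such that for all `T ≥ T₀` and all number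
fields `K`:
(1) for all `j ∈ K` composed of numbers with small digits, the torsion points over `K` of all powers of
all elliptic curves over `K` of invariant `j` have order at most `1008`;
(2) for all elliptic curves over `K` whose invariants are composed of numbers with small digits
(in bases `t_i`), the orders of the torsion points over `K` of their products, of whatever dimension,
divide `lcm (1, …, 1008)`;
(3) for `θ > 0`, `κ ≥ 0` and `θ + κ ≤ 1 / 12` (with `δ` and `T₀` depending also on `θ`) the statements
(1) and (2), with `1008` replaced by `28 / θ ^ 2`, hold over all finite extensions `L` of `K`, of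
whatever degree, with root discriminant at most `δ_K * H(j) ^ κ`, for elliptic curves over `L` with
invariants in `K` composed of numbers with small digits. -/
theorem result (D : ℕ) :
    (∃ δ : ℝ, 0 < δ ∧ ∃ T₀ : ℝ, 1 ≤ T₀ ∧ ∀ T : ℝ, T₀ ≤ T →
      ∀ (K : Type) [Field K] [NumberField K],
        (∀ (t : 𝓞 K) (j : K), Composed D δ T t j → TorsionLe 1008 j) ∧
        (∀ (r : ℕ) (a b : Fin r → K), (∀ i, 4 * a i ^ 3 + 27 * b i ^ 2 ≠ 0) →
          (∀ i, ∃ t : 𝓞 K, Composed D δ T t (jInv (a i) (b i))) →
          OrdersDivide ((Finset.Icc 1 1008).lcm id) a b)) ∧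
    (∀ θ : ℝ, 0 < θ → ∃ δ : ℝ, 0 < δ ∧ ∃ T₀ : ℝ, 1 ≤ T₀ ∧ ∀ T : ℝ, T₀ ≤ T →
      ∀ (K : Type) [Field K] [NumberField K] (κ : ℝ), 0 ≤ κ → θ + κ ≤ 1 / 12 →
        (∀ (t : 𝓞 K) (j : K), Composed D δ T t j → InExtensions κ (28 / θ ^ 2) j) ∧
        (∀ (r : ℕ) (j : Fin r → K), (∀ i, ∃ t : 𝓞 K, Composed D δ T t (j i)) →
          ∀ (L : Type) [Field L] [NumberField L] [Algebra K L],
          (∀ i, rootDisc L ≤ rootDisc K * Real.exp (κ * absH (j i))) →
          ∀ (a b : Fin r → L), (∀ i, 4 * a i ^ 3 + 27 * b i ^ 2 ≠ 0) →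
          (∀ i, jInv (a i) (b i) = algebraMap K L (j i)) →
          OrdersDivide ((Finset.Icc 1 ⌊28 / θ ^ 2⌋₊).lcm id) a b)) := by
  obtain ⟨m1, m2⟩ := Pool.Agent.Results.MP_9a3c31_nt.SmallDigitInvariants.result D
  constructor
  · obtain ⟨δ, hδ, T₀, hT₀, h⟩ := m1
    refine ⟨δ, hδ, T₀, hT₀, ?_⟩
    intro T hT K _ _
    refine ⟨fun t j hj => tors _ _ _ (h T hT K t j hj), ?_⟩
    intro r a b hD hj
    refine div_of a b 1008 _ ?_ hD ?_
    · intro m hm hmB
      have h1 : m ≤ 1008 := by exact_mod_cast hmB
      exact Finset.dvd_lcm (f := id) (Finset.mem_Icc.mpr ⟨hm, h1⟩)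
    · intro i
      obtain ⟨t, ht⟩ := hj i
      exact tors _ _ _ (h T hT K t _ ht)
  · intro θ hθ
    obtain ⟨δ, hδ, T₀, hT₀, h⟩ := m2 θ hθ
    refine ⟨δ, hδ, T₀, hT₀, ?_⟩
    intro T hT K _ _ κ hκ hθκ
    have hE : ∀ (t : 𝓞 K) (j : K), Composed D δ T t j → InExtensions κ (28 / θ ^ 2) j := by
      intro t j hj L _ _ _ hL
      exact tors _ _ _ (h T hT K t j hj κ hκ hθκ L hL)
    refine ⟨hE, ?_⟩
    intro r j hj L _ _ _ hL a b hD hab
    refine div_of a b (28 / θ ^ 2) _ ?_ hD ?_
    · intro m hm hmB
      exact Finset.dvd_lcm (f := id) (Finset.mem_Icc.mpr ⟨hm, Nat.le_floor hmB⟩)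
    · intro i
      obtain ⟨t, ht⟩ := hj i
      rw [hab i]
      exact hE t _ ht L (hL i)

end Pool.Agent.Results.MP_160b6c_nt.SmallDigitInvariants
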